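import Pool.Agent.Helper82.UW.Few
import Pool.Agent.Helper93.UX.Defs
import Pool.Agent.Helper80.UG.Avg

/-!
# UX-Q12': deviations of the averaged count (Paley-Zygmund)
-/

set_option autoImplicit false
open MeasureTheory Set Filter Topology
open Pool.Agent.Helper57.Zeta Pool.Agent.Helper57.LH Pool.Agent.Helper57.ED Pool.Agent.Helper54.LG
open Pool.Agent.Helper93.UG (zc)
open Pool.Agent.Helper69.UG (NX XX NR WW)
open Pool.Agent.Helper69.UV (ww HH)
open Pool.Agent.Helper69.UW
open Pool.Agent.Helper93.UX (AW)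

namespace Pool.Agent.Helper82.UX

/-- a window average of a measurable function is measurable -/
lemma avg_meas {f : ℝ → ℝ} (hf : Measurable f) (a h : ℝ) : Measurable (fun t => a * ∫ w in (-h)..h, f (t + w)) := by
  have h1 : Measurable (Function.uncurry fun t u : ℝ => f (t + u)) := hf.comp (measurable_fst.add measurable_snd)
  have key : ∀ s : Set ℝ, Measurable fun t : ℝ => ∫ w in s, f (t + w) := fun s =>
    (h1.stronglyMeasurable.integral_prod_right (ν := volume.restrict s)).measurable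
  exact ((key _).sub (key _)).const_mul a

/-- measurability of `AW` -/
theorem AW_meas {T c m : ℝ} (_ : 1 < T) (_ : 0 < m) : Measurable (AW T c m) :=
  avg_meas (Pool.Agent.Helper80.UG.NX_meas (XX T m)) _ _

/-- Paley-Zygmund -/
theorem pz {w Y Z : ℝ → ℝ} {L B e m D : ℝ} (hwi : Integrable w) (hw0 : ∀ t, 0 ≤ w t) (hm : ∫ t, w t ≤ m)
    (hYi : Integrable fun t => w t * Y t) (hY2 : Integrable fun t => w t * Y t ^ 2) (hZi : Integrable fun t => w t * Z t)
    (hB : ∫ t, w t * Y t ^ 2 ≤ B) (hB0 : 0 < B) (hZ : ∫ t, w t * |Z t| ≤ e) (hL : 0 ≤ L) (hD0 : 0 ≤ D)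
    (hD : D ≤ (∫ t, w t * Y t) - 2 * e - L * m) (hG : MeasurableSet {t : ℝ | L ≤ Y t - Z t}) :
    D ^ 2 / B ≤ ∫ t in {t : ℝ | L ≤ Y t - Z t}, w t := by
  set G : Set ℝ := {t : ℝ | L ≤ Y t - Z t} with hGd
  have hZa : Integrable fun t => w t * |Z t| := by
    have h1 := hZi.abs
    refine h1.congr (Eventually.of_forall fun t => ?_)
    simp only
    rw [abs_mul, abs_of_nonneg (hw0 t)]
  have hF : Integrable fun t => w t * Y t - w t * Z t := hYi.sub hZi
  have hI : ∫ t, (w t * Y t - w t * Z t) = (∫ t, w t * Y t) - ∫ t, w t * Z t := integral_sub hYi hZi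
  have hZe : |∫ t, w t * Z t| ≤ e := by
    refine le_trans abs_integral_le_integral_abs (le_trans (le_of_eq ?_) hZ)
    refine integral_congr_ae (Eventually.of_forall fun t => ?_)
    simp only
    rw [abs_mul, abs_of_nonneg (hw0 t)]
  have hsplit := integral_add_compl hG hF
  have hc : ∫ t in Gᶜ, (w t * Y t - w t * Z t) ≤ L * m := by
    calc ∫ t in Gᶜ, (w t * Y t - w t * Z t) ≤ ∫ t in Gᶜ, L * w t := by
          refine setIntegral_mono_on hF.integrableOn (hwi.const_mul L).integrableOn hG.compl fun t ht => ?_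
          have h1 : Y t - Z t < L := by
            rw [hGd, mem_compl_iff, mem_ofPred_eq, not_le] at ht
            exact ht
          have h2 := mul_le_mul_of_nonneg_left h1.le (hw0 t)
          linarith
      _ ≤ ∫ t, L * w t := setIntegral_le_integral (hwi.const_mul L) (Eventually.of_forall fun t => mul_nonneg hL (hw0 t))
      _ = L * ∫ t, w t := integral_const_mul _ _
      _ ≤ L * m := mul_le_mul_of_nonneg_left hm hL
  have hg : ∫ t in G, (w t * Y t - w t * Z t) ≤ (∫ t in G, w t * Y t) + e := by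
    have h1 : ∫ t in G, (w t * Y t - w t * Z t) = (∫ t in G, w t * Y t) - ∫ t in G, w t * Z t :=
      integral_sub hYi.integrableOn hZi.integrableOn
    have h2 : -(∫ t in G, w t * Z t) ≤ e := by
      rw [← integral_neg]
      refine le_trans (setIntegral_mono_on (g := fun t => w t * |Z t|) hZi.neg.integrableOn hZa.integrableOn hG fun t _ => ?_)
        ((setIntegral_le_integral hZa (Eventually.of_forall fun t => mul_nonneg (hw0 t) (abs_nonneg _))).trans hZ)
      have := mul_le_mul_of_nonneg_left (neg_abs_le (Z t)) (hw0 t)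
      linarith
    linarith
  have hDG : D ≤ ∫ t in G, w t * Y t := by
    have := (abs_le.1 hZe).2
    linarith
  set s := D / B with hs
  have hs0 : 0 ≤ s := div_nonneg hD0 hB0.le
  rcases eq_or_lt_of_le hD0 with h0 | h0
  · rw [← h0]
    simp only [ne_eq, OfNat.ofNat_ne_zero, not_false_eq_true, zero_pow, zero_div]
    exact setIntegral_nonneg hG fun t _ => hw0 t
  have hs1 : 0 < s := div_pos h0 hB0
  have h1 : ∫ t in G, w t * Y t ≤ ∫ t in G, (s / 2 * (w t * Y t ^ 2) + 1 / (2 * s) * w t) := by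
    refine setIntegral_mono_on hYi.integrableOn ((hY2.const_mul _).add (hwi.const_mul _)).integrableOn hG fun t _ => ?_
    have h2 : Y t ≤ s / 2 * Y t ^ 2 + 1 / (2 * s) := by
      have h3 : s / 2 * Y t ^ 2 + 1 / (2 * s) - Y t = 1 / (2 * s) * (s * Y t - 1) ^ 2 := by
        field_simp
        ring
      have h4 : 0 ≤ 1 / (2 * s) * (s * Y t - 1) ^ 2 := by positivity
      linarith
    have h3 := mul_le_mul_of_nonneg_left h2 (hw0 t)
    linarith
  have h2 : ∫ t in G, (s / 2 * (w t * Y t ^ 2) + 1 / (2 * s) * w t) =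
      s / 2 * (∫ t in G, w t * Y t ^ 2) + 1 / (2 * s) * ∫ t in G, w t := by
    rw [integral_add (hY2.const_mul _).integrableOn (hwi.const_mul _).integrableOn, integral_const_mul, integral_const_mul]
  have h3 : ∫ t in G, w t * Y t ^ 2 ≤ B :=
    (setIntegral_le_integral hY2 (Eventually.of_forall fun t => mul_nonneg (hw0 t) (sq_nonneg _))).trans hB
  have h4 : D ≤ s / 2 * B + 1 / (2 * s) * ∫ t in G, w t := by
    have := mul_le_mul_of_nonneg_left h3 (by positivity : (0:ℝ) ≤ s / 2)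
    linarith
  have h5 : s / 2 * B = D / 2 := by
    rw [hs]
    field_simp
  rw [h5] at h4
  have h6 : D / 2 * (2 * s) ≤ ∫ t in G, w t := by
    have h7 : D / 2 ≤ (∫ t in G, w t) / (2 * s) := by
      have : 1 / (2 * s) * (∫ t in G, w t) = (∫ t in G, w t) / (2 * s) := by ring
      linarith
    rwa [le_div_iff₀ (by positivity)] at h7
  calc D ^ 2 / B = D / 2 * (2 * s) := by rw [hs]; ring
    _ ≤ _ := h6

/-- R2 -/
def RrBd (δ : ℝ) : Prop := ∃ c0 T0 : ℝ, ∀ T c m v : ℝ, T0 ≤ T → Adm c0 T c m → |v| ≤ vv δ c m →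
    ∀ n, |rr δ T c m v n| ≤ T ^ (1 / 192 : ℝ) ∧ 1 ≤ VV δ T c m v

/-- R8 -/
def Wmass (δ : ℝ) : Prop := ∃ c0 T0 : ℝ, ∀ T c m v : ℝ, T0 ≤ T → Adm c0 T c m → |v| ≤ vv δ c m →
    ∀ τ : ℝ, Integrable (wt δ T c m v τ) ∧ |(∫ t, wt δ T c m v τ t) - VV δ T c m v| ≤ VV δ T c m v / T

/-- R10' -/
def EWS (δ : ℝ) : Prop := ∃ c0 T0 : ℝ, ∀ T c m v : ℝ, T0 ≤ T → Adm c0 T c m → |v| ≤ vv δ c m →
    1 ≤ (v * ll c m) ^ 2 →
    ∀ τ : ℝ, (1 - 4 * δ) * (v ^ 2 * ll c m / Real.pi) * VV δ T c m v ≤ v * ∫ t, wt δ T c m v τ t * WS T c m t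

/-- vWS -/
def VWS (δ : ℝ) : Prop := ∃ C c0 T0 : ℝ, 0 < C ∧ ∀ T c m v : ℝ, T0 ≤ T → Adm c0 T c m →
    |v| ≤ vv δ c m → ∀ τ : ℝ, Integrable (fun t => wt δ T c m v τ t * WS T c m t ^ 2) ∧
    ∫ t, wt δ T c m v τ t * WS T c m t ^ 2 ≤ C * ((v * ll c m) ^ 2 + Real.log c) * VV δ T c m v

/-- K6e -/
def Wavg (δ : ℝ) : Prop := ∃ C c0 T0 : ℝ, 0 < C ∧ ∀ T c m v : ℝ, T0 ≤ T → Adm c0 T c m →
    |v| ≤ vv δ c m → ∀ τ : ℝ, T ≤ τ → τ ≤ 2 * T →
    Integrable (fun t => wt δ T c m v τ t *
      |XX T m / (2 * Real.pi) * (∫ w in (-(HH T c))..(HH T c), NX (XX T m) (t + w)) - c + WS T c m t|) ∧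
    ∫ t, wt δ T c m v τ t *
      |XX T m / (2 * Real.pi) * (∫ w in (-(HH T c))..(HH T c), NX (XX T m) (t + w)) - c + WS T c m t| ≤
        C * VV δ T c m v

/-- Q12' -/
theorem dev_meas_of {δ : ℝ} (hδ : 0 < δ) (hδ1 : δ ≤ 1 / 32) (h2 : RrBd δ) (h8 : Wmass δ) (h10 : EWS δ) (h11 : VWS δ)
    (h6 : Wavg δ) : ∃ κ K c0 T0 : ℝ, 0 < κ ∧ 0 < K ∧ ∀ T c m v : ℝ, T0 ≤ T →
    Adm c0 T c m → |v| ≤ vv δ c m → K * Real.log c ≤ (v * ll c m) ^ 2 → ∀ τ : ℝ, T ≤ τ → τ ≤ 2 * T →
    κ * VV δ T c m v ≤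
      ∫ t in {t : ℝ | (1 - 5 * δ) * (v ^ 2 * ll c m / Real.pi) ≤ v * (c - AW T c m t)}, wt δ T c m v τ t := by
  obtain ⟨c1, T1, h10⟩ := h10
  obtain ⟨C2, c2, T2, hC2, h11⟩ := h11
  obtain ⟨c4, T4, h8⟩ := h8
  obtain ⟨c5, T5, h2⟩ := h2
  obtain ⟨Cw, c6, T6, hCw, h6⟩ := h6
  have hpi := Real.pi_pos
  set K := max 1 ((8 * Real.pi * Cw / δ) ^ 2) with hKd
  refine ⟨δ ^ 2 / (8 * Real.pi ^ 2 * C2), K, max 4 (max c1 (max c2 (max c4 (max c5 c6)))),
    max (16 + 4 / δ) (max T1 (max T2 (max T4 (max T5 T6)))), by positivity, by positivity,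
    fun T c m v hT hc hv hK τ hτ1 hτ2 => ?_⟩
  simp only [max_le_iff] at hT
  obtain ⟨hT0', hT1', hT2', hT4', hT5', hT6'⟩ := hT
  have aq : Adm 4 T c m := hc.mono (le_max_left _ _)
  have b1 := hc.mono (le_max_right 4 (max c1 (max c2 (max c4 (max c5 c6)))))
  have a1 : Adm c1 T c m := b1.mono (le_max_left _ _)
  have b2 := b1.mono (le_max_right _ _)
  have a2 : Adm c2 T c m := b2.mono (le_max_left _ _)
  have b3 := b2.mono (le_max_right _ _)
  have a4 : Adm c4 T c m := b3.mono (le_max_left _ _)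
  have b4 := b3.mono (le_max_right _ _)
  have a5 : Adm c5 T c m := b4.mono (le_max_left _ _)
  have a6 : Adm c6 T c m := b4.mono (le_max_right _ _)
  have h4δ : 0 < 4 / δ := by positivity
  have hT16 : 16 ≤ T := by linarith
  have hT0 : 0 < T := by linarith
  have hTδ : 1 / T ≤ δ / 4 := by
    rw [div_le_div_iff₀ hT0 (by norm_num)]
    have h1 : 4 / δ ≤ T := by linarith
    rw [div_le_iff₀ hδ] at h1
    linarith
  have hlc := aq.one_le_log
  have hm1 := aq.2.1
  have hm0 : 0 < m := by linarith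
  have hc0 : 0 < c := by linarith [aq.1]
  have hll := ll_pos aq (by norm_num)
  set l := ll c m with hl
  have hvl1 : Real.log c ≤ (v * l) ^ 2 := by
    refine le_trans ?_ hK
    have := mul_le_mul_of_nonneg_right (le_max_left 1 ((8 * Real.pi * Cw / δ) ^ 2)) (by linarith : 0 ≤ Real.log c)
    linarith
  have hvl2 : (8 * Real.pi * Cw / δ) ^ 2 ≤ (v * l) ^ 2 := by
    refine le_trans ?_ hK
    have h1 := mul_le_mul_of_nonneg_right (le_max_right 1 ((8 * Real.pi * Cw / δ) ^ 2)) (by linarith : 0 ≤ Real.log c)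
    have h3 : (8 * Real.pi * Cw / δ) ^ 2 * 1 ≤ (8 * Real.pi * Cw / δ) ^ 2 * Real.log c :=
      mul_le_mul_of_nonneg_left hlc (by positivity)
    linarith
  have hvl3 : 8 * Real.pi * Cw / δ ≤ |v| * l := by
    have h1 := sq_le_sq.mp hvl2
    rwa [abs_of_nonneg (by positivity : (0:ℝ) ≤ 8 * Real.pi * Cw / δ), abs_mul, abs_of_pos hll] at h1
  have hv0 : v ≠ 0 := by
    intro h0
    rw [h0] at hvl1
    norm_num at hvl1
    linarith
  have hva : 0 < |v| := abs_pos.mpr hv0
  set a := v ^ 2 * l / Real.pi with ha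
  have ha0 : 0 < a := by positivity
  have haa : a = |v| * (|v| * l) / Real.pi := by
    rw [ha, ← sq_abs v]
    ring
  have hV1 := (h2 T c m v hT5' a5 hv 0).2
  obtain ⟨hwi, hm⟩ := h8 T c m v hT4' a4 hv τ
  have hw0 := UW.wt_nonneg (δ := δ) hT0 c m v τ
  set V := VV δ T c m v with hVdef
  have hV0 : 0 < V := by linarith
  have hH0 : 0 < HH T c := by
    have : 0 < Real.log T := Real.log_pos (by linarith)
    unfold HH
    positivity
  have hE := h10 T c m v hT1' a1 hv (by linarith) τ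
  obtain ⟨hW2i, hW2⟩ := h11 T c m v hT2' a2 hv τ
  obtain ⟨hZi, hZ⟩ := h6 T c m v hT6' a6 hv τ hτ1 hτ2
  have hWi : Integrable (fun t => wt δ T c m v τ t * WS T c m t) := UW.ws_int hwi hH0
  have hAm := AW_meas (T := T) (c := c) (m := m) (by linarith) hm0
  have hSm : Measurable (WS T c m) := avg_meas (UG.SS_cont (XX T m)).measurable _ _
  have hwc := UW.wt_cont (δ := δ) hT0 c m v τ
  have e0 : ∀ t, XX T m / (2 * Real.pi) * (∫ w in (-(HH T c))..(HH T c), NX (XX T m) (t + w)) = AW T c m t := fun t => rfl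
  simp only [e0] at hZi hZ
  have hZi' : Integrable fun t => wt δ T c m v τ t * (v * (AW T c m t - c + WS T c m t)) := by
    have h1 := hZi.const_mul |v|
    refine h1.mono' ?_ (Eventually.of_forall fun t => ?_)
    · exact (hwc.measurable.mul (((hAm.sub measurable_const).add hSm).const_mul v)).aestronglyMeasurable
    · rw [Real.norm_eq_abs, abs_mul, abs_mul, abs_of_nonneg (hw0 t)]
      exact le_of_eq (by ring)
  have hset : {t : ℝ | (1 - 5 * δ) * a ≤ v * (c - AW T c m t)} =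
      {t : ℝ | (1 - 5 * δ) * a ≤ v * WS T c m t - v * (AW T c m t - c + WS T c m t)} := by
    ext t
    simp only [mem_ofPred_eq]
    have : v * WS T c m t - v * (AW T c m t - c + WS T c m t) = v * (c - AW T c m t) := by ring
    rw [this]
  rw [hset]
  have hGm : MeasurableSet {t : ℝ | (1 - 5 * δ) * a ≤ v * WS T c m t - v * (AW T c m t - c + WS T c m t)} :=
    measurableSet_le measurable_const ((hSm.const_mul v).sub (((hAm.sub measurable_const).add hSm).const_mul v))
  have hB : ∫ t, wt δ T c m v τ t * (v * WS T c m t) ^ 2 ≤ 2 * C2 * Real.pi ^ 2 * a ^ 2 * V := by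
    have h1 : ∫ t, wt δ T c m v τ t * (v * WS T c m t) ^ 2 = v ^ 2 * ∫ t, wt δ T c m v τ t * WS T c m t ^ 2 := by
      rw [← integral_const_mul]
      refine integral_congr_ae (Eventually.of_forall fun t => ?_)
      simp only
      ring
    rw [h1]
    have h3 : C2 * ((v * l) ^ 2 + Real.log c) * V ≤ C2 * (2 * (v * l) ^ 2) * V := by
      apply mul_le_mul_of_nonneg_right _ hV0.le
      apply mul_le_mul_of_nonneg_left _ hC2.le
      linarith
    calc v ^ 2 * ∫ t, wt δ T c m v τ t * WS T c m t ^ 2 ≤ v ^ 2 * (C2 * (2 * (v * l) ^ 2) * V) :=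
          mul_le_mul_of_nonneg_left (hW2.trans h3) (sq_nonneg _)
      _ = 2 * C2 * Real.pi ^ 2 * a ^ 2 * V := by
          rw [ha]
          field_simp
  have hY : (1 - 4 * δ) * a * V ≤ ∫ t, wt δ T c m v τ t * (v * WS T c m t) := by
    refine hE.trans (le_of_eq ?_)
    rw [← integral_const_mul]
    refine integral_congr_ae (Eventually.of_forall fun t => ?_)
    simp only
    ring
  have hZ' : ∫ t, wt δ T c m v τ t * |v * (AW T c m t - c + WS T c m t)| ≤ |v| * (Cw * V) := by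
    have h1 : ∫ t, wt δ T c m v τ t * |v * (AW T c m t - c + WS T c m t)| =
        |v| * ∫ t, wt δ T c m v τ t * |AW T c m t - c + WS T c m t| := by
      rw [← integral_const_mul]
      refine integral_congr_ae (Eventually.of_forall fun t => ?_)
      simp only
      rw [abs_mul]
      ring
    rw [h1]
    exact mul_le_mul_of_nonneg_left hZ hva.le
  have hvC : 2 * (|v| * (Cw * V)) ≤ δ / 4 * a * V := by
    have h1 : 2 * (|v| * Cw) ≤ δ / 4 * a := by
      rw [haa]
      rw [div_le_iff₀ hδ] at hvl3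
      have h3 : δ / 4 * (|v| * (|v| * l) / Real.pi) = |v| * (|v| * l * δ) / (4 * Real.pi) := by
        field_simp
      rw [h3, le_div_iff₀ (by positivity)]
      have h4 := mul_le_mul_of_nonneg_left hvl3 hva.le
      linarith
    have h3 := mul_le_mul_of_nonneg_right h1 hV0.le
    linarith
  have hm2 : ∫ t, wt δ T c m v τ t ≤ V + δ / 4 * V := by
    have h1 := (abs_le.1 hm).2
    have h3 : V / T ≤ δ / 4 * V := by
      have := mul_le_mul_of_nonneg_right hTδ hV0.le
      calc V / T = 1 / T * V := by ring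
        _ ≤ _ := this
    linarith
  have hL0 : 0 ≤ (1 - 5 * δ) * a := mul_nonneg (by linarith) ha0.le
  have key := pz (w := wt δ T c m v τ) (Y := fun t => v * WS T c m t) (Z := fun t => v * (AW T c m t - c + WS T c m t))
    (L := (1 - 5 * δ) * a) (B := 2 * C2 * Real.pi ^ 2 * a ^ 2 * V) (e := |v| * (Cw * V)) (m := V + δ / 4 * V)
    (D := δ / 2 * (a * V)) hwi hw0 hm2
    (by
      have := hWi.const_mul v
      refine this.congr (Eventually.of_forall fun t => ?_)
      simp only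
      ring)
    (by
      have := hW2i.const_mul (v ^ 2)
      refine this.congr (Eventually.of_forall fun t => ?_)
      simp only
      ring)
    hZi' hB (by positivity) hZ' hL0 (by positivity)
    (by
      have h1 : (1 - 5 * δ) * a * (V + δ / 4 * V) ≤ (1 - 5 * δ) * (a * V) + δ / 4 * (a * V) := by
        have h3 : 0 ≤ a * V := by positivity
        have h4 : (1 - 5 * δ) * (δ / 4 * (a * V)) ≤ 1 * (δ / 4 * (a * V)) :=
          mul_le_mul_of_nonneg_right (by linarith) (by positivity)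
        linarith
      have h3 : δ / 4 * a * V = δ / 4 * (a * V) := by ring
      have h4 : (1 - 4 * δ) * a * V = (1 - 4 * δ) * (a * V) := by ring
      rw [h3] at hvC
      rw [h4] at hY
      have h5 : (1 - 4 * δ) * (a * V) = a * V - 4 * (δ * (a * V)) := by ring
      have h6 : (1 - 5 * δ) * (a * V) = a * V - 5 * (δ * (a * V)) := by ring
      have h7 : δ / 4 * (a * V) = (δ * (a * V)) / 4 := by ring
      have h8 : δ / 2 * (a * V) = (δ * (a * V)) / 2 := by ring
      linarith) hGm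
  refine le_trans (le_of_eq ?_) key
  field_simp
  ring

end Pool.Agent.Helper82.UX
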