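import Pool.Agent.Helper8.UW.T4

/-!
# UX-T4': the large values of the resonator under its weight, `|v| ≤ vv`
-/

set_option autoImplicit false
open MeasureTheory Set Filter Topology
open Pool.Agent.Helper57.Zeta Pool.Agent.Helper57.LH Pool.Agent.Helper57.ED Pool.Agent.Helper54.LG
open Pool.Agent.Helper69.UG (pt NX XX NR NM WW near far)
open Pool.Agent.Helper69.UV (ww HH)
open Pool.Agent.Helper69.UW
open Pool.Agent.Helper8.UW (fact_div RR_cont wt_nonneg)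

namespace Pool.Agent.Helper82.UX

lemma sq_exp_le {y : ℝ} (hy : 0 < y) : y ^ 2 * Real.exp (-y) ≤ 6 / y := by
  have h1 : y ^ 3 / 6 ≤ Real.exp y := by
    have := Real.pow_div_factorial_le_exp (x := y) hy.le 3
    norm_num [Nat.factorial] at this
    exact this
  rw [Real.exp_neg, ← div_eq_mul_inv, div_le_div_iff₀ (Real.exp_pos _) hy]
  have h2 : y ^ 2 * y = y ^ 3 := by ring
  linarith

theorem rtail_of {δ : ℝ} (hδ : 0 < δ) (hδ1 : δ ≤ 1 / 32)
    (hRR : ∃ c0 T0 : ℝ, ∀ T c m v : ℝ, T0 ≤ T → Adm c0 T c m → |v| ≤ vv δ c m →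
      ∀ t : ℝ, ‖PP1 δ T c m v t‖ ≤ m / δ → ‖PP2 δ T c m v t‖ ≤ 1 →
        ‖RR δ T c m v t‖ ≤ Real.exp (‖PP1 δ T c m v t‖ + 3))
    (hP : ∃ C c0 T0 : ℝ, 0 < C ∧ ∀ T c m v : ℝ, T0 ≤ T → Adm c0 T c m →
      |v| ≤ vv δ c m → ∀ (s τ : ℝ) (k : ℕ), 0 < s → s ≤ 1 → (k : ℝ) ≤ 4 * m →
      Integrable (fun t => wt δ T c m v τ t * ‖PP1 δ T c m v t‖ ^ (2 * k)) ∧
      ∫ t, wt δ T c m v τ t * ‖PP1 δ T c m v t‖ ^ (2 * k) ≤
        C * (k.factorial / s ^ k) ^ 2 * Real.exp ((2 * s + s ^ 2) * KK δ T c m v) * VV δ T c m v)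
    (hP2 : ∃ c0 T0 : ℝ, ∀ T c m v : ℝ, T0 ≤ T → Adm c0 T c m → |v| ≤ vv δ c m →
      ∀ τ : ℝ, Integrable (fun t => wt δ T c m v τ t * ‖PP2 δ T c m v t‖ ^ 2) ∧
      ∫ t, wt δ T c m v τ t * ‖PP2 δ T c m v t‖ ^ 2 ≤ VV δ T c m v / c ^ 4)
    (hKK : ∃ c0 T0 : ℝ, ∀ T c m v : ℝ, T0 ≤ T → Adm c0 T c m →
      (1 / 2 - δ) * (v ^ 2 * ll c m) ≤ KK δ T c m v ∧ KK δ T c m v ≤ (1 / 2 + δ) * (v ^ 2 * ll c m))
    (hVV : ∃ c0 T0 : ℝ, ∀ T c m v : ℝ, T0 ≤ T → Adm c0 T c m → |v| ≤ vv δ c m →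
      Real.exp (KK δ T c m v) / 2 ≤ VV δ T c m v ∧ VV δ T c m v ≤ Real.exp (KK δ T c m v)) :
    ∀ κ : ℝ, 0 < κ → ∃ K c0 T0 : ℝ, 0 < K ∧ ∀ T c m v : ℝ, T0 ≤ T →
      Adm c0 T c m → |v| ≤ vv δ c m → K * Real.log c ≤ (v * ll c m) ^ 2 → ∀ τ : ℝ,
      ∫ t in {t : ℝ | Real.exp ((1 + 12 * δ) * (v ^ 2 * ll c m / 2)) * VV δ T c m v < ‖RR δ T c m v t‖ ^ 2}, wt δ T c m v τ t ≤
        κ * VV δ T c m v := by
  intro κ hκ
  obtain ⟨a1, T1, h1⟩ := hRR
  obtain ⟨C, a2, T2, hC, h2⟩ := hP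
  obtain ⟨a3, T3, h3⟩ := hP2
  obtain ⟨a4, T4, h4⟩ := hKK
  obtain ⟨a5, T5, h5⟩ := hVV
  set K := 2 * (3 / δ + 48 * C * Real.exp 4 / (δ ^ 4 * κ)) with hKdef
  have he4 := Real.exp_pos 4
  have hK1 : 0 < 3 / δ := by positivity
  have hK2 : 0 < 48 * C * Real.exp 4 / (δ ^ 4 * κ) := by positivity
  refine ⟨K, max (max (max a1 a2) (max a3 a4)) (max (max a5 3) (2 / κ)),
    max (max (max T1 T2) (max T3 T4)) (max T5 1), by positivity, fun T c m v hT hA hv hK τ => ?_⟩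
  simp only [max_le_iff] at hT
  obtain ⟨⟨⟨t1, t2⟩, t3, t4⟩, t5, t6⟩ := hT
  set c0 := max (max (max a1 a2) (max a3 a4)) (max (max a5 3) (2 / κ)) with hc0
  have b1 : a1 ≤ c0 := (le_max_left _ _).trans ((le_max_left _ _).trans (le_max_left _ _))
  have b2 : a2 ≤ c0 := (le_max_right _ _).trans ((le_max_left _ _).trans (le_max_left _ _))
  have b3 : a3 ≤ c0 := (le_max_left _ _).trans ((le_max_right _ _).trans (le_max_left _ _))
  have b4 : a4 ≤ c0 := (le_max_right _ _).trans ((le_max_right _ _).trans (le_max_left _ _))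
  have b5 : a5 ≤ c0 := (le_max_left _ _).trans ((le_max_left _ _).trans (le_max_right _ _))
  have b6 : 3 ≤ c0 := (le_max_right _ _).trans ((le_max_left _ _).trans (le_max_right _ _))
  have b7 : 2 / κ ≤ c0 := (le_max_right _ _).trans (le_max_right _ _)
  have hT0 : 0 < T := by linarith
  have hA3 : Adm 3 T c m := hA.mono b6
  have hc3 := hA.1
  have hm1 := hA.2.1
  have hm0 : 0 < m := by linarith
  have hlc := hA.one_le_log
  have hll1 : 1 ≤ ll c m := by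
    refine le_trans ?_ (hA3.log_le_ll (by norm_num))
    rw [Real.le_log_iff_exp_le (by norm_num)]
    linarith [Real.exp_one_lt_d9]
  have hll0 : 0 < ll c m := by linarith
  have hlll := hA.ll_le
  have g1 := h1 T c m v t1 (hA.mono b1) hv
  obtain ⟨g4, g4'⟩ := h4 T c m v t4 (hA.mono b4)
  obtain ⟨g5, g5'⟩ := h5 T c m v t5 (hA.mono b5) hv
  obtain ⟨g3, g3'⟩ := h3 T c m v t3 (hA.mono b3) hv τ
  set D := v ^ 2 * ll c m / 2 with hD
  -- size of `D`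
  have hDK : K / 2 ≤ D := by
    have e1 : K * ll c m ≤ (v ^ 2 * ll c m) * ll c m := by
      have h6 : K * ll c m ≤ K * Real.log c := mul_le_mul_of_nonneg_left hlll (by positivity)
      have h7 : (v * ll c m) ^ 2 = (v ^ 2 * ll c m) * ll c m := by ring
      linarith
    have e2 := le_of_mul_le_mul_right e1 hll0
    rw [hD]
    linarith
  have hD3 : 3 / δ ≤ D := by
    have : K / 2 = 3 / δ + 48 * C * Real.exp 4 / (δ ^ 4 * κ) := by rw [hKdef]; ring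
    linarith
  have hDC : 48 * C * Real.exp 4 / (δ ^ 4 * κ) ≤ D := by
    have : K / 2 = 3 / δ + 48 * C * Real.exp 4 / (δ ^ 4 * κ) := by rw [hKdef]; ring
    linarith
  have hD0 : 0 < D := by linarith
  have hδD : 3 ≤ δ * D := by
    rw [div_le_iff₀ hδ] at hD3
    linarith
  have hDup : D ≤ 18 * m := by
    have e1 : |v| ≤ 6 * √m / ll c m := hv.trans (vv_le hδ hδ1 hA3 (by norm_num))
    have e2 : v ^ 2 ≤ (6 * √m / ll c m) ^ 2 := by
      rw [← sq_abs v]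
      exact pow_le_pow_left₀ (abs_nonneg _) e1 2
    have e3 : (6 * √m / ll c m) ^ 2 = 36 * m / ll c m ^ 2 := by
      rw [div_pow, mul_pow, Real.sq_sqrt hm0.le]
      norm_num
    rw [e3] at e2
    have e4 : v ^ 2 * ll c m ≤ 36 * m / ll c m ^ 2 * ll c m := mul_le_mul_of_nonneg_right e2 hll0.le
    have e5 : 36 * m / ll c m ^ 2 * ll c m = 36 * m / ll c m := by
      field_simp
    have e6 : 36 * m / ll c m ≤ 36 * m := div_le_self (by positivity) hll1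
    rw [hD]
    linarith
  set Λ := (1 + δ) * (1 + 2 * δ) * D with hΛ
  have hδ2 : δ ^ 2 ≤ δ / 32 := by nlinarith
  have hΛeq : Λ = D + 3 * (δ * D) + 2 * (δ ^ 2 * D) := by rw [hΛ]; ring
  have hδ2D : δ ^ 2 * D ≤ δ * D / 32 := by
    have := mul_le_mul_of_nonneg_right hδ2 hD0.le
    linarith
  have hδD1 : δ * D ≤ D / 32 := by
    have := mul_le_mul_of_nonneg_right hδ1 hD0.le
    linarith
  have hδ2D0 : 0 ≤ δ ^ 2 * D := by positivity
  have hΛD : D ≤ Λ := by linarith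
  have hΛ2 : Λ ≤ 11 / 10 * D := by linarith
  have hΛ0 : 0 < Λ := by linarith
  have hΛm : Λ ≤ m / δ := by
    rw [le_div_iff₀ hδ]
    have e1 : Λ * δ ≤ 20 * m * (1 / 32) := mul_le_mul (by linarith) hδ1 hδ.le (by positivity)
    linarith
  have hδΛ : δ * Λ ≤ m := by
    rw [le_div_iff₀ hδ] at hΛm
    linarith
  have hδΛ1 : 1 ≤ δ * Λ := by
    have := mul_le_mul_of_nonneg_left hΛD hδ.le
    linarith
  set k := ⌊δ * Λ⌋₊ with hk
  have hk1 : 1 ≤ k := by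
    rw [hk, Nat.one_le_floor_iff]
    exact hδΛ1
  have hk2 : (k : ℝ) ≤ δ * Λ := Nat.floor_le (by linarith)
  have hk3 : δ * Λ ≤ k + 1 := (Nat.lt_floor_add_one _).le
  have hkm : (k : ℝ) ≤ m := hk2.trans hδΛ
  obtain ⟨g2, g2'⟩ := h2 T c m v t2 (hA.mono b2) hv δ τ k hδ (by linarith) (by linarith)
  have hVV0 : 0 < VV δ T c m v := lt_of_lt_of_le (by positivity) g5
  have gL : (1 - 2 * δ) * D ≤ KK δ T c m v := by
    have : (1 - 2 * δ) * D = (1 / 2 - δ) * (v ^ 2 * ll c m) := by rw [hD]; ring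
    linarith
  have gU : KK δ T c m v ≤ (1 + 2 * δ) * D := by
    have : (1 + 2 * δ) * D = (1 / 2 + δ) * (v ^ 2 * ll c m) := by rw [hD]; ring
    linarith
  have hln2 : Real.log 2 ≤ 1 := by
    have := Real.log_two_lt_d9
    linarith
  have n5 : Real.exp (2 * (Λ + 3)) ≤ Real.exp ((1 + 12 * δ) * D) * (Real.exp ((1 - 2 * δ) * D) / 2) := by
    have e2 : Real.exp ((1 - 2 * δ) * D) / 2 = Real.exp ((1 - 2 * δ) * D - Real.log 2) := by
      rw [Real.exp_sub, Real.exp_log (by norm_num)]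
    rw [e2, ← Real.exp_add]
    refine Real.exp_le_exp.2 ?_
    have e3 : (1 + 12 * δ) * D + ((1 - 2 * δ) * D - Real.log 2) = 2 * D + 10 * (δ * D) - Real.log 2 := by ring
    rw [e3]
    linarith
  set A : Set ℝ := {t : ℝ | Real.exp ((1 + 12 * δ) * D) * VV δ T c m v < ‖RR δ T c m v t‖ ^ 2} with hAdef
  have hAm : MeasurableSet A := by
    refine measurableSet_lt measurable_const ?_
    exact ((RR_cont δ T c m v).norm.pow 2).measurable
  -- on `A` one of the two prime sums is large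
  have hone : ∀ t ∈ A, 1 ≤ ‖PP1 δ T c m v t‖ ^ (2 * k) * (Λ ^ (2 * k))⁻¹ + ‖PP2 δ T c m v t‖ ^ 2 := by
    intro t ht
    have hp1 : 0 ≤ ‖PP1 δ T c m v t‖ ^ (2 * k) * (Λ ^ (2 * k))⁻¹ := by positivity
    have hp2 : 0 ≤ ‖PP2 δ T c m v t‖ ^ 2 := by positivity
    rcases lt_or_ge Λ ‖PP1 δ T c m v t‖ with h | h
    · have h6 : Λ ^ (2 * k) ≤ ‖PP1 δ T c m v t‖ ^ (2 * k) := pow_le_pow_left₀ hΛ0.le h.le _
      have h7 : 1 ≤ ‖PP1 δ T c m v t‖ ^ (2 * k) * (Λ ^ (2 * k))⁻¹ := by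
        rw [← div_eq_mul_inv, le_div_iff₀ (by positivity), one_mul]
        exact h6
      linarith
    · rcases lt_or_ge 1 ‖PP2 δ T c m v t‖ with h' | h'
      · have : 1 ≤ ‖PP2 δ T c m v t‖ ^ 2 := one_le_pow₀ h'.le
        linarith
      · exfalso
        have h6 : ‖RR δ T c m v t‖ ^ 2 ≤ Real.exp (2 * (Λ + 3)) := by
          have h7 : ‖RR δ T c m v t‖ ≤ Real.exp (Λ + 3) :=
            (g1 t (h.trans hΛm) h').trans (Real.exp_le_exp.2 (by linarith))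
          have h8 := pow_le_pow_left₀ (norm_nonneg _) h7 2
          rw [← Real.exp_nat_mul] at h8
          exact_mod_cast h8
        have h7 : Real.exp ((1 + 12 * δ) * D) * (Real.exp ((1 - 2 * δ) * D) / 2) ≤
            Real.exp ((1 + 12 * δ) * D) * VV δ T c m v := by
          refine mul_le_mul_of_nonneg_left ?_ (Real.exp_pos _).le
          have := Real.exp_le_exp.2 gL
          linarith
        have h8 : Real.exp ((1 + 12 * δ) * D) * VV δ T c m v < ‖RR δ T c m v t‖ ^ 2 := ht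
        linarith
  set g : ℝ → ℝ := fun t => (Λ ^ (2 * k))⁻¹ * (wt δ T c m v τ t * ‖PP1 δ T c m v t‖ ^ (2 * k)) +
    wt δ T c m v τ t * ‖PP2 δ T c m v t‖ ^ 2 with hg
  have hgi : Integrable g := (g2.const_mul _).add g3
  have hw0 : ∀ t, 0 ≤ wt δ T c m v τ t := fun t => wt_nonneg hT0 t
  have hg0 : ∀ t, 0 ≤ g t := fun t => by
    have := hw0 t
    simp only [hg]
    positivity
  have hint : ∫ t in A, wt δ T c m v τ t ≤ ∫ t in A, g t := by
    refine integral_mono_of_nonneg (Eventually.of_forall fun t => hw0 t) hgi.integrableOn ?_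
    refine (ae_restrict_iff' hAm).2 (Eventually.of_forall fun t ht => ?_)
    have h6 := hone t ht
    have h7 := mul_le_mul_of_nonneg_left h6 (hw0 t)
    simp only [hg]
    linarith
  have hint2 : ∫ t in A, g t ≤ ∫ t, g t := setIntegral_le_integral hgi (Eventually.of_forall hg0)
  have hint3 : ∫ t, g t = (Λ ^ (2 * k))⁻¹ * (∫ t, wt δ T c m v τ t * ‖PP1 δ T c m v t‖ ^ (2 * k)) +
      ∫ t, wt δ T c m v τ t * ‖PP2 δ T c m v t‖ ^ 2 := by
    rw [hg, integral_add (g2.const_mul _) g3, integral_const_mul]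
  -- the moment
  have hmom : (Λ ^ (2 * k))⁻¹ * (∫ t, wt δ T c m v τ t * ‖PP1 δ T c m v t‖ ^ (2 * k)) ≤ κ / 2 * VV δ T c m v := by
    have hq : (Λ ^ (2 * k))⁻¹ * ((k.factorial : ℝ) / δ ^ k) ^ 2 = ((k.factorial : ℝ) / (δ * Λ) ^ k) ^ 2 := by
      have e1 : Λ ^ (2 * k) = (Λ ^ k) ^ 2 := by rw [← pow_mul, mul_comm]
      have e2 : (δ * Λ) ^ k = δ ^ k * Λ ^ k := mul_pow _ _ _
      have e3 : Λ ^ k ≠ 0 := (pow_pos hΛ0 k).ne'
      have e4 : δ ^ k ≠ 0 := (pow_pos hδ k).ne'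
      rw [e1, e2]
      generalize Λ ^ k = x at e3 ⊢
      generalize δ ^ k = y at e4 ⊢
      field_simp
    have hfd := fact_div hk1 hk2 hk3
    have hk4 : (k : ℝ) ≤ 2 * (δ * D) := by
      have h6 : δ * Λ ≤ δ * (11 / 10 * D) := mul_le_mul_of_nonneg_left hΛ2 hδ.le
      linarith
    have hfd2 : ((k.factorial : ℝ) / (δ * Λ) ^ k) ^ 2 ≤ (2 * (δ * D)) ^ 2 * Real.exp (4 - 2 * (δ * Λ)) := by
      have h6 : (0 : ℝ) ≤ (k.factorial : ℝ) / (δ * Λ) ^ k := by positivity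
      have h7 := pow_le_pow_left₀ h6 hfd 2
      refine h7.trans ?_
      rw [mul_pow, ← Real.exp_nat_mul]
      have h8 : (k : ℝ) ^ 2 ≤ (2 * (δ * D)) ^ 2 := pow_le_pow_left₀ (by positivity) hk4 2
      have h9 : ((2 : ℕ) : ℝ) * (2 - δ * Λ) = 4 - 2 * (δ * Λ) := by
        push_cast
        ring
      rw [h9]
      exact mul_le_mul_of_nonneg_right h8 (Real.exp_pos _).le
    have hex : Real.exp (4 - 2 * (δ * Λ)) * Real.exp ((2 * δ + δ ^ 2) * KK δ T c m v) ≤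
        Real.exp 4 * Real.exp (-(δ ^ 2 * D)) := by
      rw [← Real.exp_add, ← Real.exp_add]
      refine Real.exp_le_exp.2 ?_
      have h6 : (2 * δ + δ ^ 2) * KK δ T c m v ≤ (2 * δ + δ ^ 2) * ((1 + 2 * δ) * D) :=
        mul_le_mul_of_nonneg_left gU (by positivity)
      have h7 : (2 * δ + δ ^ 2) * ((1 + 2 * δ) * D) - 2 * (δ * Λ) = -(δ ^ 2 * D) - 2 * δ ^ 3 * D := by
        rw [hΛ]
        ring
      have h9 : 0 ≤ 2 * δ ^ 3 * D := by positivity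
      linarith
    have hfin : C * ((2 * (δ * D)) ^ 2 * (Real.exp 4 * Real.exp (-(δ ^ 2 * D)))) ≤ κ / 2 := by
      have h6 := sq_exp_le (y := δ ^ 2 * D) (by positivity)
      have h7 : C * ((2 * (δ * D)) ^ 2 * (Real.exp 4 * Real.exp (-(δ ^ 2 * D)))) =
          4 * C * Real.exp 4 / δ ^ 2 * ((δ ^ 2 * D) ^ 2 * Real.exp (-(δ ^ 2 * D))) := by
        field_simp
        ring
      have h8 : 4 * C * Real.exp 4 / δ ^ 2 * ((δ ^ 2 * D) ^ 2 * Real.exp (-(δ ^ 2 * D))) ≤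
          4 * C * Real.exp 4 / δ ^ 2 * (6 / (δ ^ 2 * D)) := mul_le_mul_of_nonneg_left h6 (by positivity)
      rw [h7]
      refine h8.trans ?_
      have h9 : 4 * C * Real.exp 4 / δ ^ 2 * (6 / (δ ^ 2 * D)) = 24 * C * Real.exp 4 / (δ ^ 4 * D) := by
        field_simp
        ring
      rw [h9, div_le_iff₀ (by positivity)]
      rw [div_le_iff₀ (by positivity)] at hDC
      have h10 : κ / 2 * (δ ^ 4 * D) = D * (δ ^ 4 * κ) / 2 := by ring
      rw [h10]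
      linarith
    have hΛi : 0 ≤ (Λ ^ (2 * k))⁻¹ := by positivity
    calc (Λ ^ (2 * k))⁻¹ * (∫ t, wt δ T c m v τ t * ‖PP1 δ T c m v t‖ ^ (2 * k)) ≤
          (Λ ^ (2 * k))⁻¹ * (C * (k.factorial / δ ^ k) ^ 2 * Real.exp ((2 * δ + δ ^ 2) * KK δ T c m v) * VV δ T c m v) :=
          mul_le_mul_of_nonneg_left g2' hΛi
      _ = C * ((Λ ^ (2 * k))⁻¹ * ((k.factorial : ℝ) / δ ^ k) ^ 2) * Real.exp ((2 * δ + δ ^ 2) * KK δ T c m v) * VV δ T c m v := by
          ring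
      _ = C * ((k.factorial : ℝ) / (δ * Λ) ^ k) ^ 2 * Real.exp ((2 * δ + δ ^ 2) * KK δ T c m v) * VV δ T c m v := by
          rw [hq]
      _ ≤ C * ((2 * (δ * D)) ^ 2 * Real.exp (4 - 2 * (δ * Λ))) * Real.exp ((2 * δ + δ ^ 2) * KK δ T c m v) * VV δ T c m v := by
          gcongr
      _ = C * ((2 * (δ * D)) ^ 2 * (Real.exp (4 - 2 * (δ * Λ)) * Real.exp ((2 * δ + δ ^ 2) * KK δ T c m v))) *
            VV δ T c m v := by
          ring
      _ ≤ C * ((2 * (δ * D)) ^ 2 * (Real.exp 4 * Real.exp (-(δ ^ 2 * D)))) * VV δ T c m v := by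
          gcongr
      _ ≤ κ / 2 * VV δ T c m v := mul_le_mul_of_nonneg_right hfin hVV0.le
  have hlast : VV δ T c m v / c ^ 4 ≤ κ / 2 * VV δ T c m v := by
    have hcκ : 2 / κ ≤ c := b7.trans (hA.le_c (by linarith))
    have h6 : c ≤ c ^ 4 := le_self_pow₀ (by linarith) (by norm_num)
    rw [div_le_iff₀ (by positivity)]
    rw [div_le_iff₀ hκ] at hcκ
    have h7 : 2 ≤ c ^ 4 * κ := hcκ.trans (mul_le_mul_of_nonneg_right h6 hκ.le)
    have h8 := mul_le_mul_of_nonneg_right h7 hVV0.le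
    linarith
  calc ∫ t in A, wt δ T c m v τ t ≤ ∫ t, g t := hint.trans hint2
    _ ≤ κ / 2 * VV δ T c m v + κ / 2 * VV δ T c m v := by
        rw [hint3]
        linarith
    _ = κ * VV δ T c m v := by ring

end Pool.Agent.Helper82.UX
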